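import Pool.Agent.N694.IX.Box
import Pool.Agent.N694.BR.Abs

/-!
# Primes `p_{jn}` with `p_{jn} + h` prime: almost all `h` in a Bohr set, and all patterns of `k + 1` numbers

Let `p_j` be the `j`-th prime. The question asks for primes `p_{jn}`, with index a multiple of `n`, for which
`p_{jn} + 2` is prime. For all `k`, `s` and `ε > 0` there are `d` and `ρ, δ > 0` such that for all `n`, all `q` and
all `b` coprime to `q` there are `M` and `n₀` such that for EVERY multiple `N` of `M` and every `H ≥ n₀` there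
are at most `d` real numbers `θ` and a radius `ρ ≤ r ≤ 1` such that the Bohr set

  `B = { t : |t| ≤ H, |exp (2 π i θ t) - 1| ≤ r for all θ }`

has at least `δ H` elements, and for all but at most `ε |B|^k` of the vectors `y ∈ B^k` the following holds for
every nonsingular integer matrix `T` with entries at most `s` in absolute value and the shifts
`(d_1, ..., d_k) = N T y`: for arbitrarily large `x` and some `C`, for every set `J` of the indices `0, ..., k` and for
all residues `a_0, ..., a_k`, at least `x / (log x)^C` of the `1 ≤ m ≤ x` in the class `b` modulo `q` have the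
property that among `m, m + d_1, ..., m + d_k` exactly the numbers `m + d_i`, `i ∈ J`, are prime, and
`π(m + d_i) ≡ a_i` modulo `n` for all `i`. For `k = 1`, `J = {0, 1}` and `a_0 = 0`: for almost all `t ∈ B` and for
each `h = N t, 2 N t, ..., s N t` there are infinitely many `j` for which `p_{jn} + h` is prime, and the index of the
prime `p_{jn} + h` may be prescribed modulo `n`.

Proof: the almost complete sets of `Pool.Agent.N694.IX.cleI` (coloured Maynard-Tao theorem with the constant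
`18/5`, hypergraph containers, a Ramsey argument for the indices) and the theorem on returns in Bohr sets
(`Pool.Agent.N694.BR.bohr`).
-/

set_option autoImplicit false

namespace Pool.Agent.Results.MP_be93de_nt.BohrSetsWithIndices

open Finset Filter

/-- `m ≡ b` modulo `q`; the number `m + d i` is prime exactly for `i ∈ J`; and for every `i` the number
`π(m + d i)` of the primes up to `m + d i` (the index of `m + d i` if this is a prime) is `≡ a i` modulo `n`. -/
def Pattern (q : ℕ) (b : ℤ) (n : ℕ) {k : ℕ} (d : Fin (k + 1) → ℤ) (J : Finset (Fin (k + 1)))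
    (a : Fin (k + 1) → ℕ) (m : ℕ) : Prop :=
  (m : ℤ) ≡ b [ZMOD q] ∧ ∀ i, (((m : ℤ) + d i).toNat.Prime ↔ i ∈ J) ∧
    Nat.primeCounting ((m : ℤ) + d i).toNat ≡ a i [MOD n]

/-- For some `C` and for arbitrarily large `x`, every pattern `J` with every vector `a` of residues modulo `n`
occurs at the shifts `0, d_1, ..., d_k` for at least `x / (log x)^C` of the `1 ≤ m ≤ x`. -/
def Good (q : ℕ) (b : ℤ) (n : ℕ) {k : ℕ} (d : Fin k → ℤ) : Prop := ∃ C : ℕ, ∃ᶠ x : ℕ in atTop,
  ∀ (J : Finset (Fin (k + 1))) (a : Fin (k + 1) → ℕ), (x : ℝ) / (Real.log x) ^ C ≤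
    ({m : ℕ | (1 ≤ m ∧ m ≤ x) ∧ Pattern q b n (Fin.cons 0 d : Fin (k + 1) → ℤ) J a m}.ncard : ℝ)

open Classical in
/-- the Bohr set of the integers `|t| ≤ H` with `|exp (2πiθt) - 1| ≤ r` for all `θ ∈ Θ` -/
noncomputable def bohrSet (Θ : Finset ℝ) (r : ℝ) (H : ℕ) : Finset ℤ :=
  (Icc (-(H : ℤ)) H).filter (fun t => ∀ θ ∈ Θ,
    ‖Complex.exp (2 * Real.pi * Complex.I * θ * t) - 1‖ ≤ r)

/-- the set of the vectors with `k` coordinates in `B` -/
def vectors (k : ℕ) (B : Finset ℤ) : Finset (Fin k → ℤ) := Fintype.piFinset (fun _ => B)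

/-- **Bohr sets of shifts, with prescribed indices modulo `n`.** -/
theorem result (k s : ℕ) (ε : ℝ) (hε : 0 < ε) : ∃ (d : ℕ) (ρ δ : ℝ), 0 < ρ ∧ 0 < δ ∧
    ∀ n : ℕ, 1 ≤ n → ∀ q : ℕ, 1 ≤ q → ∀ b : ℤ, IsCoprime (q : ℤ) b → ∃ M n₀ : ℕ, 1 ≤ M ∧
      ∀ N : ℕ, 1 ≤ N → M ∣ N → ∀ H : ℕ, n₀ ≤ H → ∃ (Θ : Finset ℝ) (r : ℝ),
        Θ.card ≤ d ∧ ρ ≤ r ∧ r ≤ 1 ∧ δ * H ≤ (bohrSet Θ r H).card ∧
        ∃ 𝒢 ⊆ vectors k (bohrSet Θ r H),
          ((vectors k (bohrSet Θ r H) \ 𝒢).card : ℝ) ≤ ε * ((bohrSet Θ r H).card : ℝ) ^ k ∧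
          ∀ y ∈ 𝒢, ∀ T : Matrix (Fin k) (Fin k) ℤ, (∀ i j, |T i j| ≤ s) → T.det ≠ 0 →
            Good q b n (fun i => N * (T.mulVec y) i) := by
  obtain ⟨d, ρ, δ, ε', hρ, hδ, hε', h⟩ := Pool.Agent.N694.BR.bohr k s ε hε
  refine ⟨d, ρ, δ, hρ, hδ, fun n hn q hq b hb => ?_⟩
  obtain ⟨M, n₀, hM, h1⟩ := h _ (Pool.Agent.N694.IX.cleI k ε' hε' q hq b hb n hn)
  refine ⟨M, n₀, hM, fun N hN hMN H hH => ?_⟩
  obtain ⟨Θ, r, g1, g2, g3, g4, 𝒢, g5, g6, g7⟩ := h1 N hN hMN H hH
  refine ⟨Θ, r, g1, g2, g3, g4, 𝒢, g5, ?_, fun y hy T hT hdet => (g7 y hy T hT hdet).2⟩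
  refine le_trans (le_of_eq ?_) g6
  congr 2

end Pool.Agent.Results.MP_be93de_nt.BohrSetsWithIndices
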