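import Pool.Agent.W2helper70.CG.Ind

set_option autoImplicit false

/-!
# Twin pairs at the indices `k n` and `k ^ 2 n` in the Cramér–Granville model

Let `M` be a positive even modulus and `κ > 0`. The random set `R` consists of the numbers `m` coprime
to `M` which are kept, where `m` is kept with probability `min (1, κ / log m)` (never for `m = 0, 1`),
independently for all `m`. For `κ = M / φ(M)` this is Cramér's model of the primes, corrected for the
primes which divide `M` (Granville). Let `P 1 < P 2 < …` be the elements of `R`, and call an index
`j ≥ 1` good if `P j + 2` is in `R` (`Twin M ω j`).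

1. Almost surely the assertions (a) and (b) of Q1 and the assertion of Q2 hold in the model for all but
   finitely many `n`: some index `k n` and some index `k ^ 2 n` with `1 ≤ k ≤ n`, and some index `k n`
   with `1 ≤ k < 3 √n + 6`, are good.
2. In fact `k` of the order `(log n) ^ 2` is enough, anywhere and in all classes: for all `D, T` there is
   `C` such that for every strictly increasing `f` with `f k ≤ (k + 1) ^ D`, almost surely, for all large
   `n` and all `r, y < n ^ T` some `k` in `(y, y + C (log n) ^ 2]` makes the index `f k * n + r` good.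
3. The order `(log n) ^ 2` is the right one: there is `c > 0` such that for every such `f`, almost
   surely, for all large `N` there is `n` in `[N, 2 N]` for which no index `f k * n` with
   `1 ≤ k ≤ c (log N) ^ 2` is good. So almost surely the upper limit of `k(n) / (log n) ^ 2` is positive
   and finite, `k(n)` the least `k` for which the index `k n` (or `k ^ 2 n`) is good.

How large `n` has to be may depend on the outcome `ω`. Nothing is claimed about the primes.

The file `Fam` has the general theorem behind 2 (`fam_one`): for families of at most `n ^ T` arbitrary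
sets of at least `K (log n) ^ 2` indices between `n ^ (1 / A)` and `n ^ B`, almost surely, for all large
`n` each of the sets has a proportion at least `c / log n` of good elements; and `LowFam` the one behind 3
(`lowfam`): among at least `n ^ τ` disjoint sets of at most `c (log n) ^ 2` such indices there is one
without good elements.

Proof. The index of an element depends on all smaller elements, so the events are not independent.
Given the elements up to `P j`, the index `j + 1` is good with conditional probability at least
`c / log P j` (the next element is at distance at most `c' log P j` and `≡ -1` modulo `M`, and the number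
after the next is kept), and given the elements up to `P j` the index `j` is good with conditional
probability at most `κ / log P j`. The first gives exponential bounds for the number of good indices in a
set (`Base`, `Dev`), the second a domination by independent coins (`Low`).
-/

namespace Pool.Agent.Results.MP_be93de_nt.CramerModelIndices

open MeasureTheory Filter
open Pool.Agent.W2helper70.CG

theorem result (κ : ℝ) (hκ : 0 < κ) (M : ℕ) (hM : Even M) (hM0 : 0 < M) :
    -- 1. the assertions of Q1 and Q2 for all large `n`
    (∀ᵐ ω ∂(law κ), ∀ᶠ n : ℕ in atTop,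
      (∃ k, 1 ≤ k ∧ k ≤ n ∧ Twin M ω (k * n)) ∧ (∃ k, 1 ≤ k ∧ k ≤ n ∧ Twin M ω (k ^ 2 * n)) ∧
      ∃ k : ℕ, 1 ≤ k ∧ (k : ℝ) < 3 * √n + 6 ∧ Twin M ω (k * n)) ∧
    -- 2. `k` in all intervals of length `C (log n) ^ 2`
    (∀ D T : ℕ, ∃ C : ℝ, 0 < C ∧ ∀ f : ℕ → ℕ, StrictMono f → (∀ k, f k ≤ (k + 1) ^ D) →
      ∀ᵐ ω ∂(law κ), ∀ᶠ n : ℕ in atTop, ∀ r < n ^ T, ∀ y < n ^ T,
        ∃ k : ℕ, y < k ∧ (k : ℝ) ≤ y + C * Real.log n ^ 2 ∧ Twin M ω (f k * n + r)) ∧
    -- 3. no `k ≤ c (log N) ^ 2` for some `n`
    (∃ c : ℝ, 0 < c ∧ ∀ f : ℕ → ℕ, StrictMono f → (∃ D, ∀ k, f k ≤ (k + 1) ^ D) →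
      ∀ᵐ ω ∂(law κ), ∀ᶠ N : ℕ in atTop, ∃ n, N ≤ n ∧ n ≤ 2 * N ∧
        ∀ k : ℕ, 1 ≤ k → (k : ℝ) ≤ c * Real.log N ^ 2 → ¬ Twin M ω (f k * n)) :=
  ⟨sun hκ hM hM0, fun D T => windows hκ hM hM0 D T, slow hκ hM hM0⟩

end Pool.Agent.Results.MP_be93de_nt.CramerModelIndices
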