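import Pool.Agent.W2helper64.HI.Fin

/-!
# Infinite patterns of consecutive primes with a prescribed index modulo every `n`

Let `p_j` be the `j`-th prime. The question asks for primes `p_{jn}`, with index a multiple of `n`, for which
`p_{jn} + 2` is prime. Every infinite set `V` of natural numbers contains an infinite set `B` such that for ALL moduli
`n`, `q` and every `M` there is `K` such that EVERY nonempty, finite or infinite, `T ⊆ B` with least element `t₀ ≥ K` is
the pattern of consecutive primes from a prime with any prescribed class of the index modulo `n` and any prescribed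
class `a` modulo `q` (`a` prime to `q`): for all `c`, `a` and `R` there are infinitely many primes `p ≡ a` modulo `q`
with `π(p) ≡ c` modulo `n` (`π(p)` is the index of `p`) such that the primes between `p - M` and `p + R` are exactly
the numbers `p + (t - t₀)`, `t ∈ T`. The set `B` does not depend on `n`, `q`, `M`, `c`, `a`.

In particular (`c = 0`, `T = {b, b'}`): for every `n` and all but finitely many of the elements `b < b'` of `B` there are
infinitely many `j` with `p_{jn + 1} - p_{jn} = b' - b`. So every infinite set `V` contains an infinite set `B` such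
that, for every `n`, all the differences of its elements from some point on have the property in question of the
difference `2`, even for consecutive primes.

Proof: by the infinite exact pattern theorem of the starting files and Ellentuck's theorem
(`Pool.Agent.W68.Her.core`) all subsets of an infinite `Y ⊆ V` are exact patterns; the classes modulo `n` of `π` which
occur for an infinite subset depend on it in a Ramsey way, hence do not depend on it after a second use of
Ellentuck's theorem; a pattern is then preceded by `s < n` additional primes, which shift the class of the index by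
`s`; finally a diagonal argument over all moduli and classes.
-/

set_option autoImplicit false

namespace Pool.Agent.Results.MP_be93de_nt.HereditaryIndexPatterns

/-- **Infinite patterns with prescribed indices.** -/
theorem result (V : Set ℕ) (hV : V.Infinite) : ∃ B ⊆ V, B.Infinite ∧
    (∀ n q M : ℕ, 1 ≤ n → 1 ≤ q → ∃ K : ℕ, ∀ T ⊆ B, (∀ t ∈ T, K ≤ t) → ∀ t₀ ∈ T, (∀ t ∈ T, t₀ ≤ t) →
      ∀ (c : ℕ) (a : ℤ), IsCoprime a (q : ℤ) → ∀ R : ℕ,
        {p : ℕ | p.Prime ∧ (p : ℤ) ≡ a [ZMOD q] ∧ Nat.primeCounting p ≡ c [MOD n] ∧
          ∀ y : ℤ, -(M : ℤ) ≤ y → y ≤ R →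
            (((p : ℤ) + y).toNat.Prime ↔ ∃ t ∈ T, (t : ℤ) = t₀ + y)}.Infinite) ∧
    ∀ n : ℕ, 1 ≤ n → ∃ K : ℕ, ∀ b ∈ B, ∀ b' ∈ B, K ≤ b → b < b' →
      {p : ℕ | p.Prime ∧ n ∣ Nat.primeCounting p ∧ (p + (b' - b)).Prime ∧
        ∀ x : ℕ, p < x → x < p + (b' - b) → ¬ x.Prime}.Infinite := by
  obtain ⟨B, hBV, hB, h⟩ := Pool.Agent.W2helper64.HI.main V hV
  refine ⟨B, hBV, hB, h, fun n hn => ?_⟩
  obtain ⟨K, hK⟩ := h n 1 0 hn le_rfl
  refine ⟨K, fun b hb b' hb' hKb hbb => ?_⟩
  have h1 := hK {b, b'} (by
    rintro t (rfl | rfl)
    · exact hb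
    · exact hb') (by
    rintro t (rfl | rfl) <;> omega) b (Or.inl rfl) (by
    rintro t (rfl | rfl) <;> omega) 0 1 isCoprime_one_left (b' - b)
  refine h1.mono ?_
  rintro p ⟨h2, -, h3, h4⟩
  refine ⟨h2, (Nat.modEq_zero_iff_dvd).1 h3, ?_, ?_⟩
  · have h5 := h4 ((b' - b : ℕ) : ℤ) (by omega) le_rfl
    rw [show ((p : ℤ) + ((b' - b : ℕ) : ℤ)).toNat = p + (b' - b) by omega] at h5
    exact h5.2 ⟨b', Or.inr rfl, by omega⟩
  · intro x hx1 hx2 hx
    have h5 := h4 ((x - p : ℕ) : ℤ) (by omega) (by omega)
    rw [show ((p : ℤ) + ((x - p : ℕ) : ℤ)).toNat = x by omega] at h5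
    obtain ⟨t, ht, h6⟩ := h5.1 hx
    rcases ht with rfl | ht
    · omega
    · rw [Set.mem_singleton_iff] at ht
      subst ht
      omega

end Pool.Agent.Results.MP_be93de_nt.HereditaryIndexPatterns
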