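import Pool.Agent.W2helper64.RK.Index

set_option autoImplicit false

/-!
# Twin pairs at indices divisible by `n` in the random sieve model of Banks, Ford and Tao

For every prime `p` a residue class `a p` modulo `p` is chosen uniformly and independently. The random
set `R` consists of the natural numbers `m ≥ e ^ 2` which avoid the class `a p` for every prime `p` with
`∏_(q ≤ p) (1 - 1 / q) ≥ 1 / log m`; this is the random sieve model for the primes of Banks, Ford and
Tao, in which the classes `0 mod p` of the sieve of Eratosthenes are replaced by random ones. The index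
of an element `r` of `R` is the number of elements of `R` up to `r`.

We prove that almost surely, for every `n` and every residue class `c` modulo `n`, every interval
`(x, x + (log x) ^ C]` with large `x` contains an element `r` of `R` such that `r + 2` is in `R` and the
index of `r` is congruent to `c` modulo `n`; for `c = 0` these are twin pairs at indices divisible by
`n`. More generally all admissible patterns occur exactly (with no further elements of `R` in a window
of arbitrary fixed length) at indices in all classes. Here `C` depends only on `n` and the number of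
elements of the pattern.
-/

namespace Pool.Agent.Results.MP_be93de_nt.RandomSieveIndices

open Filter MeasureTheory

/-- the product `V y = ∏_(p ≤ y, p prime) (1 - 1 / p)` -/
noncomputable def V (y : ℕ) : ℝ := ∏ p ∈ (Finset.Icc 1 y).filter Nat.Prime, (1 - 1 / (p : ℝ))

/-- the random set: all `m ≥ e ^ 2` outside the chosen class `a p` for every prime `p` with
`V p ≥ 1 / log m` -/
def R (a : (p : Nat.Primes) → ZMod (p : ℕ)) : Set ℕ :=
  {m | Real.exp 2 ≤ m ∧ ∀ p : Nat.Primes, 1 ≤ V (p : ℕ) * Real.log m → ((m : ℕ) : ZMod (p : ℕ)) ≠ a p}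

/-- the chosen classes `a p`, `p` prime, are independent and uniform modulo `p` -/
noncomputable def law : Measure ((p : Nat.Primes) → ZMod (p : ℕ)) :=
  Measure.infinitePi fun p : Nat.Primes => ProbabilityTheory.uniformOn (Set.univ : Set (ZMod (p : ℕ)))

/-- the index of `r` in `S`: the number of elements of `S` up to `r` -/
noncomputable def index (S : Set ℕ) (r : ℕ) : ℕ := (S ∩ Set.Iic r).ncard

/-- `H` does not contain all residue classes modulo any prime -/
def Admissible (H : Finset ℕ) : Prop := ∀ p : ℕ, p.Prime → ∃ z : ℕ, ∀ h ∈ H, ¬ h ≡ z [MOD p]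

/-- exact patterns -/
theorem patterns (k n : ℕ) (hn : 1 ≤ n) : ∃ C : ℝ, ∀ᵐ a ∂law, ∀ H : Finset ℕ, H.card ≤ k →
    Admissible H → 0 ∈ H → ∀ M : ℕ, (∀ h ∈ H, h ≤ M) → ∀ c : ℕ,
      ∀ᶠ x : ℕ in atTop, ∃ r : ℕ, x < r ∧ (r : ℝ) ≤ x + Real.log x ^ C ∧
        (∀ t ≤ M, (r + t ∈ R a ↔ t ∈ H)) ∧ index (R a) r ≡ c [MOD n] := by
  obtain ⟨C, -, h⟩ := Pool.Agent.W2helper64.RK.ae_index k n hn
  exact ⟨C, h⟩

/-- * For every `n ≥ 1` there is `C` such that almost surely for every class `c` modulo `n` and all
large `x` there is an `r` with `x < r ≤ x + (log x) ^ C`, `r, r + 2 ∈ R`, and the index of `r` in `R` is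
congruent to `c` modulo `n`.
* For all `k` and `n ≥ 1` there is `C` such that almost surely for every admissible set `H` with at most
`k` elements, one of them `0`, every `M` which is at least the maximum of `H`, every class `c` modulo
`n` and all large `x` there is an `r` with `x < r ≤ x + (log x) ^ C` such that the elements of `R` in
`[r, r + M]` are exactly the numbers `r + h`, `h ∈ H`, and the index of `r` in `R` is congruent to `c`
modulo `n`. -/
theorem result :
    (∀ n : ℕ, 1 ≤ n → ∃ C : ℝ, ∀ᵐ a ∂law, ∀ c : ℕ, ∀ᶠ x : ℕ in atTop,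
      ∃ r : ℕ, x < r ∧ (r : ℝ) ≤ x + Real.log x ^ C ∧ r ∈ R a ∧ r + 2 ∈ R a ∧
        index (R a) r ≡ c [MOD n]) ∧
    (∀ k n : ℕ, 1 ≤ n → ∃ C : ℝ, ∀ᵐ a ∂law, ∀ H : Finset ℕ, H.card ≤ k → Admissible H → 0 ∈ H →
      ∀ M : ℕ, (∀ h ∈ H, h ≤ M) → ∀ c : ℕ, ∀ᶠ x : ℕ in atTop,
        ∃ r : ℕ, x < r ∧ (r : ℝ) ≤ x + Real.log x ^ C ∧
          (∀ t ≤ M, (r + t ∈ R a ↔ t ∈ H)) ∧ index (R a) r ≡ c [MOD n]) := by
  refine ⟨fun n hn => ?_, patterns⟩
  obtain ⟨C, hC⟩ := patterns 2 n hn
  refine ⟨C, ?_⟩
  filter_upwards [hC] with a ha c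
  have h1 := ha {0, 2} (by decide) (by
    intro p hp
    by_cases h2 : p = 2
    · subst h2
      refine ⟨1, fun h hh => ?_⟩
      rw [Finset.mem_insert, Finset.mem_singleton] at hh
      rcases hh with rfl | rfl <;> decide
    · refine ⟨1, fun h hh heq => ?_⟩
      rw [Finset.mem_insert, Finset.mem_singleton] at hh
      have hp1 := hp.one_lt
      rcases hh with rfl | rfl
      · have := (Nat.modEq_iff_dvd' (by norm_num : 0 ≤ 1)).mp heq
        have := Nat.le_of_dvd (by norm_num) this
        omega
      · have := (Nat.modEq_iff_dvd' (by norm_num : 1 ≤ 2)).mp heq.symm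
        have := Nat.le_of_dvd (by norm_num) this
        omega) (by simp) 2 (by
    intro h hh
    rw [Finset.mem_insert, Finset.mem_singleton] at hh
    omega) c
  filter_upwards [h1] with x hx
  obtain ⟨r, h2, h3, h4, h5⟩ := hx
  refine ⟨r, h2, h3, ?_, (h4 2 (by norm_num)).mpr (by simp), h5⟩
  have := (h4 0 (by norm_num)).mpr (by simp)
  simpa using this

end Pool.Agent.Results.MP_be93de_nt.RandomSieveIndices
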